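import Pool.Agent.H53.PNF.D

/-!
# PNF, module IDX: the index of the doubles
-/

set_option autoImplicit false

namespace Pool.PNF

theorem idx : IDXStmt := by
  intro A _ H H' hfi h2 hHH ι _ p hp hpi κ _ φ hφ
  classical
  set dbl : A →+ A := nsmulAddMonoidHom 2 with hdbl
  have hdv : ∀ a : A, dbl a = a + a := fun a => by
    rw [hdbl, nsmulAddMonoidHom_apply, two_nsmul]
  have hinj : Function.Injective dbl := by
    rw [injective_iff_map_eq_zero]
    intro a ha
    rw [hdv] at ha
    exact h2 a ha
  have hle : H.map dbl ≤ H := by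
    intro x hx
    obtain ⟨a, ha, rfl⟩ := AddSubgroup.mem_map.mp hx
    rw [hdv]
    exact H.add_mem ha ha
  have hle2 : H.map dbl ≤ (⊤ : AddSubgroup A).map dbl := AddSubgroup.map_mono le_top
  have hr : (H.map dbl).relIndex ((⊤ : AddSubgroup A).map dbl) = H.index := by
    rw [AddSubgroup.relIndex_map_map_of_injective _ _ hinj, AddSubgroup.relIndex_top_right]
  have hmul1 : (H.map dbl).relIndex H * H.index = (H.map dbl).index :=
    AddSubgroup.relIndex_mul_index hle
  have hmul2 : (H.map dbl).relIndex ((⊤ : AddSubgroup A).map dbl)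
      * ((⊤ : AddSubgroup A).map dbl).index = (H.map dbl).index :=
    AddSubgroup.relIndex_mul_index hle2
  have hH0 : H.index ≠ 0 := hfi.index_ne_zero
  have heq : (H.map dbl).relIndex H = ((⊤ : AddSubgroup A).map dbl).index := by
    have h3 : (H.map dbl).relIndex H * H.index
        = ((⊤ : AddSubgroup A).map dbl).index * H.index := by
      rw [hmul1, ← hmul2, hr, mul_comm]
    exact Nat.eq_of_mul_eq_mul_right (Nat.pos_of_ne_zero hH0) h3
  -- the upper bound
  have hup : ((⊤ : AddSubgroup A).map dbl).index ≤ Nat.card κ ∧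
      ((⊤ : AddSubgroup A).map dbl).index ≠ 0 := by
    have hi : Function.Injective
        (fun q : A ⧸ ((⊤ : AddSubgroup A).map dbl) => φ q.out) := by
      intro q r hqr
      obtain ⟨c, hc⟩ := hφ _ _ hqr
      rw [← q.out_eq', ← r.out_eq']
      rw [QuotientAddGroup.eq]
      refine AddSubgroup.mem_map.mpr ⟨-c, AddSubgroup.mem_top _, ?_⟩
      rw [hdv, ← neg_add, ← hc]
      abel
    have : Finite (A ⧸ ((⊤ : AddSubgroup A).map dbl)) := Finite.of_injective _ hi
    refine ⟨Nat.card_le_card_of_injective _ hi, ?_⟩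
    exact AddSubgroup.index_ne_zero_of_finite
  refine le_trans ?_ hup.1
  rw [← heq]
  have hne : (H.map dbl).relIndex H ≠ 0 := by rw [heq]; exact hup.2
  have hfin : Finite (H ⧸ (H.map dbl).addSubgroupOf H) :=
    Nat.finite_of_card_ne_zero hne
  refine Nat.card_le_card_of_injective
    (fun i : ι => (QuotientAddGroup.mk (⟨p i, hp i⟩ : H) : H ⧸ (H.map dbl).addSubgroupOf H)) ?_
  intro i j hij
  have h3 := QuotientAddGroup.eq.mp hij
  rw [AddSubgroup.mem_addSubgroupOf] at h3
  obtain ⟨a, ha, hae⟩ := AddSubgroup.mem_map.mp h3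
  rw [hdv] at hae
  have h4 : p j - p i ∈ H' := by
    have h5 := hHH a ha
    rw [hae] at h5
    have h6 : ((-(⟨p i, hp i⟩ : H) + ⟨p j, hp j⟩ : H) : A) = p j - p i := by
      push_cast
      abel
    rw [h6] at h5
    exact h5
  exact (hpi j i h4).symm

end Pool.PNF
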