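import Pool.Agent.H53.PNF.D
import Pool.Agent.H36.T1.DIVK

/-!
# PNF, modules KNL and KPI: classes of points
-/

set_option autoImplicit false

namespace Pool.PNF

open Polynomial Pool.HYP

namespace KNLaux

variable {L : Type} [Field L]

lemma cu_nat (a b c : L) : (cu a b c).natDegree = 3 := by
  have h1 : cu a b c = C 1 * X ^ 3 + C a * X ^ 2 + C b * X + C c := by
    rw [cu, C_1, one_mul]
  rw [h1]
  exact natDegree_cubic one_ne_zero

lemma cu_monic (a b c : L) : (cu a b c).Monic := by
  rw [Monic, leadingCoeff, cu_nat, cu]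
  simp [coeff_X, coeff_C]

lemma cu_eval (a b c x : L) : (cu a b c).eval x = x ^ 3 + a * x ^ 2 + b * x + c := by
  rw [cu]
  simp

lemma on_curve {a b c x y : L} (h : (WE a b c).toAffine.Nonsingular x y) :
    y ^ 2 = x ^ 3 + a * x ^ 2 + b * x + c := by
  have h1 := h.1
  rw [WeierstrassCurve.Affine.equation_iff] at h1
  simpa using h1

lemma lin_cop {a b c : L} (hirr : Irreducible (cu a b c)) (x : L) :
    IsCoprime (C x - X : L[X]) (cu a b c) := by
  have h1 : IsCoprime (cu a b c) (C x - X : L[X]) := by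
    rw [hirr.coprime_iff_not_dvd]
    intro h
    have h3 : (C x - X : L[X]) = 0 := by
      refine eq_zero_of_dvd_of_natDegree_lt h ?_
      rw [cu_nat]
      have h4 : (C x - X : L[X]) = C (-1) * X + C x := by
        rw [C_neg, C_1]; ring
      rw [h4]
      exact lt_of_le_of_lt natDegree_linear_le (by norm_num)
    have h4 := congrArg (fun p : L[X] => p.coeff 1) h3
    simp [coeff_X, coeff_C] at h4
  exact h1.symm

end KNLaux

open KNLaux in
theorem knl : KNLStmt := by
  intro L _ a b c hirr P
  match P with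
  | .zero =>
    refine ⟨isCoprime_one_left, ?_, 1, 0, 1, monic_one, isCoprime_one_left, one_dvd _, ?_⟩
    · show IsSquare (Algebra.norm L (AdjoinRoot.mk (cu a b c) 1))
      rw [map_one, map_one]
      exact ⟨1, by ring⟩
    · have h1 : (-1 : L[X]) ^ (1 : L[X]).natDegree * 1 -
          cls (WeierstrassCurve.Affine.Point.zero : (WE a b c).toAffine.Point) * 1 ^ 2 = 0 := by
        rw [natDegree_one]
        show (-1 : L[X]) ^ 0 * 1 - 1 * 1 ^ 2 = 0
        ring
      rw [h1]
      exact dvd_zero _
  | .some x y h =>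
    have hy := on_curve h
    have hcop := lin_cop hirr x
    refine ⟨hcop, ?_, X - C x, C y, 1, monic_X_sub_C _, ?_, ?_, ?_⟩
    · show IsSquare (Algebra.norm L (AdjoinRoot.mk (cu a b c) (C x - X)))
      rw [Pool.HYP.NMU.norm_sub _ (cu_monic a b c) x, cu_eval, ← hy]
      exact ⟨y, by ring⟩
    · have h4 : (X - C x : L[X]) = -(C x - X) := by ring
      rw [h4]
      exact hcop.neg_left
    · rw [dvd_iff_isRoot, IsRoot.def, eval_sub, eval_pow, eval_C, cu_eval, hy, sub_self]
    · have h3 : (-1 : L[X]) ^ (X - C x : L[X]).natDegree * (X - C x) -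
          (C x - X) * 1 ^ 2 = 0 := by
        rw [natDegree_X_sub_C]
        ring
      show cu a b c ∣ (-1 : L[X]) ^ (X - C x : L[X]).natDegree * (X - C x) - (C x - X) * 1 ^ 2
      rw [h3]
      exact dvd_zero _

end Pool.PNF
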