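import Pool.Agent.H17.PNF.KNL

/-!
# PNF, module KPI: halving
-/

set_option autoImplicit false

namespace Pool.PNF

open Polynomial Pool.HYP Pool.T1 WeierstrassCurve.Affine

namespace KPIaux

open KNLaux

variable {L : Type} [Field L]

lemma no_root {a b c : L} (hirr : Irreducible (cu a b c)) (x : L) :
    x ^ 3 + a * x ^ 2 + b * x + c ≠ 0 := by
  intro h
  have h1 := lin_cop hirr x
  have h2 : (C x - X : L[X]) ∣ cu a b c := by
    have h3 : (X - C x : L[X]) ∣ cu a b c := by
      rw [dvd_iff_isRoot, IsRoot.def, cu_eval, h]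
    have h4 : (C x - X : L[X]) = -(X - C x) := by ring
    rw [h4]
    exact (neg_dvd).mpr h3
  have h5 : IsUnit (C x - X : L[X]) := h1.isUnit_of_dvd' dvd_rfl h2
  have h6 := natDegree_eq_zero_of_isUnit h5
  have h7 : (C x - X : L[X]).natDegree = 1 := by
    rw [← natDegree_neg, neg_sub]
    exact natDegree_X_sub_C x
  omega

lemma y_ne {a b c : L} (hirr : Irreducible (cu a b c)) {x y : L}
    (h : y ^ 2 = x ^ 3 + a * x ^ 2 + b * x + c) : y ≠ 0 := by
  intro hy
  apply no_root hirr x
  rw [← h, hy]
  ring

/-- Halving, as in DIVK. -/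
lemma halfpt {a b c : L} (hirr : Irreducible (cu a b c)) (x : L) (s : L[X])
    (hs : cu a b c ∣ (C x - X) - s ^ 2) :
    ∃ x' y' : L, y' ^ 2 = x' ^ 3 + a * x' ^ 2 + b * x' + c ∧
      4 * y' ^ 2 * x = x' ^ 4 - 2 * b * x' ^ 2 - 8 * c * x' + b ^ 2 - 4 * a * c := by
  have hfm := cu_monic a b c
  have hfd := cu_nat a b c
  set r : L[X] := s %ₘ cu a b c with hr
  have hrd : r.natDegree < 3 := by
    have h3 := natDegree_modByMonic_lt s hfm (by
      intro h
      rw [h, natDegree_one] at hfd
      omega)
    rw [hfd] at h3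
    exact h3
  have hre : r = C (r.coeff 0) + C (r.coeff 1) * X + C (r.coeff 2) * X ^ 2 := by
    conv_lhs => rw [r.as_sum_range' 3 hrd]
    simp [Finset.sum_range_succ, ← C_mul_X_pow_eq_monomial]
  have hsr : cu a b c ∣ (C x - X) - r ^ 2 := by
    have h3 : cu a b c ∣ s - r := by
      rw [hr]
      refine ⟨s /ₘ cu a b c, ?_⟩
      have := modByMonic_add_div s (cu a b c)
      linear_combination -this
    have h4 : (C x - X) - r ^ 2 = ((C x - X) - s ^ 2) + (s - r) * (s + r) := by ring
    rw [h4]
    exact dvd_add hs (Dvd.dvd.mul_right h3 _)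
  rw [hre] at hsr
  by_cases h3 : r.coeff 2 = 0
  · exfalso
    rw [h3, C_0, zero_mul, add_zero] at hsr
    have h4 : (C x - X : L[X]) - (C (r.coeff 0) + C (r.coeff 1) * X) ^ 2 =
        C (-(r.coeff 1) ^ 2) * X ^ 2 + C (-1 - 2 * r.coeff 0 * r.coeff 1) * X +
          C (x - (r.coeff 0) ^ 2) := by
      simp only [C_add, C_sub, C_mul, C_pow, map_ofNat, C_neg, C_1]
      ring
    rw [h4] at hsr
    have h5 : C (-(r.coeff 1) ^ 2) * X ^ 2 + C (-1 - 2 * r.coeff 0 * r.coeff 1) * X +
          C (x - (r.coeff 0) ^ 2) = 0 := by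
      refine eq_zero_of_dvd_of_natDegree_lt hsr ?_
      rw [hfd]
      exact lt_of_le_of_lt natDegree_quadratic_le (by norm_num)
    obtain ⟨h6, h7, -⟩ := DIVK.quad0 _ _ _ h5
    have h8 : r.coeff 1 = 0 := by
      rw [neg_eq_zero] at h6
      exact pow_eq_zero_iff (two_ne_zero) |>.mp h6
    rw [h8, mul_zero, sub_zero] at h7
    exact neg_ne_zero.mpr one_ne_zero h7
  · exact DIVK.half a b c x _ _ _ h3 hsr

lemma nons {a b c : L} (h2 : (2 : L) ≠ 0) {x y : L} (hy0 : y ≠ 0)
    (h : y ^ 2 = x ^ 3 + a * x ^ 2 + b * x + c) : (WE a b c).toAffine.Nonsingular x y := by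
  rw [WeierstrassCurve.Affine.nonsingular_iff]
  refine ⟨?_, ?_⟩
  · rw [WeierstrassCurve.Affine.equation_iff]
    simpa using h
  · right
    intro h1
    simp only [zero_mul, sub_zero] at h1
    have h3 : 2 * y = 0 := by linear_combination h1
    rcases mul_eq_zero.mp h3 with h4 | h4
    · exact h2 h4
    · exact hy0 h4

variable [DecidableEq L]

/-- If the class of a point is trivial then the point is a double. -/
lemma dbl_of {a b c : L} (h2 : (2 : L) ≠ 0) (hirr : Irreducible (cu a b c))
    (P : (WE a b c).toAffine.Point) (s : L[X]) (hs : cu a b c ∣ cls P - s ^ 2) :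
    ∃ R : (WE a b c).toAffine.Point, P = R + R := by
  match P, hs with
  | .zero, _ => exact ⟨0, (add_zero 0).symm⟩
  | .some x y h, hs =>
    have hy := on_curve h
    obtain ⟨x', y', h1, h3⟩ := halfpt hirr x s hs
    have hy0 : y' ≠ 0 := y_ne hirr h1
    have hns : (WE a b c).toAffine.Nonsingular x' y' := nons h2 hy0 h1
    have hne : y' ≠ (WE a b c).toAffine.negY x' y' := by
      intro h4
      rw [WeierstrassCurve.Affine.negY] at h4
      simp only [zero_mul, sub_zero] at h4
      have h5 : 2 * y' = 0 := by linear_combination h4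
      rcases mul_eq_zero.mp h5 with h6 | h6
      · exact h2 h6
      · exact hy0 h6
    have hsum := Point.add_self_of_Y_ne (h₁ := hns) hne
    have hsl : (WE a b c).toAffine.slope x' x' y' y' = (3 * x' ^ 2 + 2 * a * x' + b) / (2 * y') := by
      rw [WeierstrassCurve.Affine.slope_of_Y_ne rfl hne, WeierstrassCurve.Affine.negY]
      simp only [zero_mul, sub_zero]
      rw [sub_neg_eq_add, ← two_mul]
    have hX : (WE a b c).toAffine.addX x' x' ((WE a b c).toAffine.slope x' x' y' y') = x := by
      rw [hsl, WeierstrassCurve.Affine.addX]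
      simp only [zero_mul, add_zero]
      have h4 : (4 : L) ≠ 0 := by
        have : (4 : L) = 2 * 2 := by norm_num
        rw [this]
        exact mul_ne_zero h2 h2
      have h5 : 4 * y' ^ 2 * (((3 * x' ^ 2 + 2 * a * x' + b) / (2 * y')) ^ 2 - a - x' - x')
          = 4 * y' ^ 2 * x := by
        rw [h3]
        have h6 : 4 * y' ^ 2 * (((3 * x' ^ 2 + 2 * a * x' + b) / (2 * y')) ^ 2 - a - x' - x')
            = (3 * x' ^ 2 + 2 * a * x' + b) ^ 2 - 4 * y' ^ 2 * (a + 2 * x') := by
          field_simp
          ring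
        rw [h6, h1]
        ring
      exact mul_left_cancel₀ (mul_ne_zero h4 (pow_ne_zero 2 hy0)) h5
    have hns' := WeierstrassCurve.Affine.nonsingular_add hns hns fun hxy => hne hxy.right
    have hyy := on_curve hns'
    rw [hX, ← hy] at hyy
    rcases sq_eq_sq_iff_eq_or_eq_neg.mp hyy with h4 | h4
    · refine ⟨Point.some x' y' hns, ?_⟩
      rw [hsum]
      exact (Point.some.injEq _ _ _ _ _ _).mpr ⟨hX.symm, h4.symm⟩
    · refine ⟨-Point.some x' y' hns, ?_⟩
      rw [← neg_add, hsum, Point.neg_some]
      refine (Point.some.injEq _ _ _ _ _ _).mpr ⟨hX.symm, ?_⟩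
      rw [WeierstrassCurve.Affine.negY]
      simp only [zero_mul, sub_zero]
      rw [h4, neg_neg]

end KPIaux

open KNLaux KPIaux in
theorem kpi : KPIStmt := by
  intro L _ _ h2 a b c hirr
  refine ⟨?_, ?_⟩
  · intro P hP
    match P, hP with
    | .zero, _ => rfl
    | .some x y h, hP =>
      exfalso
      have hy := on_curve h
      have hy0 : y ≠ 0 := y_ne hirr hy
      have h3 : (Point.some x y h : (WE a b c).toAffine.Point) = -Point.some x y h :=
        eq_neg_of_add_eq_zero_left hP
      rw [Point.neg_some] at h3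
      have h4 := ((Point.some.injEq _ _ _ _ _ _).mp h3).2
      rw [WeierstrassCurve.Affine.negY] at h4
      simp only [zero_mul, sub_zero] at h4
      have h5 : 2 * y = 0 := by linear_combination h4
      rcases mul_eq_zero.mp h5 with h6 | h6
      · exact h2 h6
      · exact hy0 h6
  · intro P Q s hs
    match P, Q, hs with
    | .zero, Q, hs =>
      have h1 : cls (Point.zero : (WE a b c).toAffine.Point) * cls Q = cls Q := one_mul _
      rw [h1] at hs
      obtain ⟨R, hR⟩ := dbl_of h2 hirr Q s hs
      refine ⟨-R, ?_⟩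
      show (0 : (WE a b c).toAffine.Point) - Q = -R + -R
      rw [hR]
      abel
    | P, .zero, hs =>
      have h1 : cls P * cls (Point.zero : (WE a b c).toAffine.Point) = cls P := mul_one _
      rw [h1] at hs
      obtain ⟨R, hR⟩ := dbl_of h2 hirr P s hs
      refine ⟨R, ?_⟩
      show P - (0 : (WE a b c).toAffine.Point) = R + R
      rw [← hR, sub_zero]
    | .some x₁ y₁ h₁, .some x₂ y₂ h₂, hs =>
      have hy₁ := on_curve h₁
      have hy₂ := on_curve h₂
      by_cases hx : x₁ = x₂
      · subst hx
        rw [← hy₁] at hy₂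
        rcases sq_eq_sq_iff_eq_or_eq_neg.mp hy₂ with h4 | h4
        · subst h4
          exact ⟨0, by rw [sub_self, add_zero]⟩
        · refine ⟨Point.some x₁ y₁ h₁, ?_⟩
          have h5 : (Point.some x₁ y₂ h₂ : (WE a b c).toAffine.Point) = -Point.some x₁ y₁ h₁ := by
            rw [Point.neg_some]
            refine (Point.some.injEq _ _ _ _ _ _).mpr ⟨rfl, ?_⟩
            rw [WeierstrassCurve.Affine.negY, h4]
            simp
          rw [h5, sub_neg_eq_add]
      · have hx' : x₁ - x₂ ≠ 0 := sub_ne_zero.mpr hx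
        set lam : L := (y₁ - y₂) / (x₁ - x₂) with hlam
        have hl : lam * (x₁ - x₂) = y₁ - y₂ := by
          rw [hlam]
          field_simp
        set x₃ : L := lam ^ 2 - a - x₁ - x₂ with hx₃
        have hsl : (WE a b c).toAffine.slope x₁ x₂ y₁ y₂ = lam :=
          WeierstrassCurve.Affine.slope_of_X_ne hx
        have hX : (WE a b c).toAffine.addX x₁ x₂ ((WE a b c).toAffine.slope x₁ x₂ y₁ y₂) = x₃ := by
          rw [hsl, WeierstrassCurve.Affine.addX]
          simp only [zero_mul, add_zero]
          rw [hx₃]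
        have hsum := Point.add_of_X_ne (h₁ := h₁) (h₂ := h₂) hx
        set al : L := b - 2 * lam * (y₁ - lam * x₁) - (x₁ * x₂ + x₁ * x₃ + x₂ * x₃) with hal
        set be : L := c - (y₁ - lam * x₁) ^ 2 + x₁ * x₂ * x₃ with hbe
        have e1 : al * x₁ + be = 0 := by
          rw [hal, hbe, hx₃]
          linear_combination -hy₁
        have e2 : al * x₂ + be = 0 := by
          have h5 : y₂ = y₁ - lam * (x₁ - x₂) := by linear_combination hl
          rw [h5] at hy₂
          rw [hal, hbe, hx₃]
          linear_combination -hy₂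
        have e3 : al = 0 := by
          have h5 : al * (x₁ - x₂) = 0 := by linear_combination e1 - e2
          rcases mul_eq_zero.mp h5 with h6 | h6
          · exact h6
          · exact absurd h6 hx'
        have e4 : be = 0 := by
          rw [e3] at e1
          linear_combination e1
        have key : cu a b c = (C lam * (X - C x₁) + C y₁) ^ 2
            - (C x₁ - X) * (C x₂ - X) * (C x₃ - X) := by
          have h5 : cu a b c = (C lam * (X - C x₁) + C y₁) ^ 2
            - (C x₁ - X) * (C x₂ - X) * (C x₃ - X) + C al * X + C be := by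
            rw [cu, hal, hbe, hx₃]
            simp only [C_add, C_sub, C_mul, C_pow, map_ofNat]
            ring
          rw [e3, e4] at h5
          rw [h5]
          simp
        have hcop₁ := lin_cop hirr x₁
        have hcop₂ := lin_cop hirr x₂
        have hscop : IsCoprime s (cu a b c) := by
          have h5 : IsCoprime ((C x₁ - X) * (C x₂ - X) : L[X]) (cu a b c) := hcop₁.mul_left hcop₂
          obtain ⟨w, hw⟩ := hs
          have h6 : s ^ 2 = (C x₁ - X) * (C x₂ - X) + cu a b c * (-w) := by
            have h7 : (C x₁ - X) * (C x₂ - X) - s ^ 2 = cu a b c * w := hw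
            linear_combination -h7
          have h7 : IsCoprime (s ^ 2) (cu a b c) := by
            rw [h6]
            exact h5.add_mul_left_left _
          exact (IsCoprime.pow_left_iff (by norm_num)).mp h7
        obtain ⟨u, v, huv⟩ := hscop
        have hfin : cu a b c ∣ (C x₃ - X) - ((C lam * (X - C x₁) + C y₁) * u) ^ 2 := by
          obtain ⟨w, hw⟩ := hs
          have h7 : (C x₁ - X) * (C x₂ - X) - s ^ 2 = cu a b c * w := hw
          have h8 : (C x₁ - X) * (C x₂ - X) * (C x₃ - X)
              = (C lam * (X - C x₁) + C y₁) ^ 2 - cu a b c := by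
            rw [key]; ring
          refine ⟨(C x₃ - X) * v * (1 + u * s) - u ^ 2 * (1 + w * (C x₃ - X)), ?_⟩
          linear_combination (-(C x₃ - X) * (1 + u * s)) * huv - u ^ 2 * (C x₃ - X) * h7
            + u ^ 2 * h8
        have hne' : ¬(x₁ = x₂ ∧ y₁ = (WE a b c).toAffine.negY x₂ y₂) := fun h => hx h.1
        obtain ⟨R, hR⟩ := dbl_of h2 hirr
          (Point.some x₁ y₁ h₁ + Point.some x₂ y₂ h₂ : (WE a b c).toAffine.Point)
          ((C lam * (X - C x₁) + C y₁) * u) (by
            rw [hsum]
            show cu a b c ∣ (C ((WE a b c).toAffine.addX x₁ x₂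
              ((WE a b c).toAffine.slope x₁ x₂ y₁ y₂)) - X)
              - ((C lam * (X - C x₁) + C y₁) * u) ^ 2
            rw [hX]
            exact hfin)
        refine ⟨R - Point.some x₂ y₂ h₂, ?_⟩
        have h9 : R - Point.some x₂ y₂ h₂ + (R - Point.some x₂ y₂ h₂)
            = (R + R) - Point.some x₂ y₂ h₂ - Point.some x₂ y₂ h₂ := by abel
        rw [h9, ← hR]
        abel

end Pool.PNF
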