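import Pool.Agent.H53.PNF.D

/-!
# PNF, module TSU: every element of the maximal ideal is a parameter

`t = x z²` is the root near `1` of `t³ + (a z² - 1) t² + b z⁴ t + c z⁶`.
-/

set_option autoImplicit false

namespace Pool.PNF

open Polynomial Pool.HYP Pool.TOW

theorem tsu : TSUStmt := by
  intro L _ O π e hD a b c z ha hb hc hz hzπ
  have hπ0 : π ≠ 0 := hD.loc.pi_ne
  set ϖ : O := ⟨π, hD.loc.pi_mem⟩ with hϖ
  have hm : ∀ x : O, x ∈ IsLocalRing.maximalIdeal O ↔ ϖ ∣ x := by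
    intro x
    rw [← IsLocalRing.residue_eq_zero_iff]
    exact UD.W.residue_zero_iff hD.loc ϖ rfl x
  set z' : O := ⟨z / π, hzπ⟩ with hz'
  set Z : O := ϖ * z' with hZ
  have hZv : (Z : L) = z := by
    rw [hZ, hϖ, hz']
    show π * (z / π) = z
    field_simp
  have hZm : Z ∈ IsLocalRing.maximalIdeal O := (hm Z).mpr ⟨z', rfl⟩
  set A : O := ⟨a, ha⟩ with hA
  set B : O := ⟨b, hb⟩ with hB
  set E : O := ⟨c, hc⟩ with hE
  set h : O[X] := X ^ 3 + (C (A * Z ^ 2 - 1) * X ^ 2 + C (B * Z ^ 4) * X + C (E * Z ^ 6)) with hh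
  have hmon : h.Monic := by
    rw [hh]
    refine monic_X_pow_add ?_
    exact degree_quadratic_lt
  have hev : ∀ t : O, h.eval t
      = t ^ 3 + ((A * Z ^ 2 - 1) * t ^ 2 + B * Z ^ 4 * t + E * Z ^ 6) := by
    intro t
    rw [hh]
    simp only [eval_add, eval_mul, eval_pow, eval_X, eval_C]
  have hdv : h.derivative.eval 1 = 1 + Z * (2 * A * Z + B * Z ^ 3) := by
    rw [hh]
    simp only [derivative_add, derivative_mul, derivative_C, derivative_X_pow, derivative_X,
      eval_add, eval_mul, eval_pow, eval_X, eval_C, zero_mul, zero_add, add_zero, mul_one,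
      one_pow, map_natCast, eval_natCast]
    push_cast
    ring
  have := hD.cpl
  have hHen : HenselianRing O (IsLocalRing.maximalIdeal O) :=
    IsAdicComplete.henselianRing O (IsLocalRing.maximalIdeal O)
  obtain ⟨t, ht, ht1⟩ := hHen.is_henselian h hmon 1 (by
    rw [hev]
    have h1 : (1 : O) ^ 3 + ((A * Z ^ 2 - 1) * 1 ^ 2 + B * Z ^ 4 * 1 + E * Z ^ 6)
        = Z * (A * Z + B * Z ^ 3 + E * Z ^ 5) := by ring
    rw [h1]
    exact Ideal.mul_mem_right _ _ hZm) (by
    have h1 : Ideal.Quotient.mk (IsLocalRing.maximalIdeal O) (h.derivative.eval 1) = 1 := by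
      rw [hdv, map_add, map_one, Ideal.Quotient.eq_zero_iff_mem.mpr
        (Ideal.mul_mem_right _ _ hZm), add_zero]
    rw [h1]
    exact isUnit_one)
  have htm : t ∉ IsLocalRing.maximalIdeal O := by
    intro h1
    have h2 : (1 : O) ∈ IsLocalRing.maximalIdeal O := by
      have h3 := Ideal.sub_mem _ h1 ht1
      have h4 : t - (t - 1) = 1 := by ring
      rw [h4] at h3
      exact h3
    exact (IsLocalRing.maximalIdeal.isMaximal O).ne_top
      ((Ideal.eq_top_iff_one _).mpr h2)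
  have ht0 : (t : L) ≠ 0 := by
    intro h1
    apply htm
    have h2 : t = 0 := Subtype.ext h1
    rw [h2]
    exact Ideal.zero_mem _
  rw [IsRoot.def, hev] at ht
  have htL : (t : L) ^ 3 + ((a * z ^ 2 - 1) * (t : L) ^ 2 + b * z ^ 4 * t + c * z ^ 6) = 0 := by
    have h1 : ((t ^ 3 + ((A * Z ^ 2 - 1) * t ^ 2 + B * Z ^ 4 * t + E * Z ^ 6) : O) : L) = 0 := by
      rw [ht]
      rfl
    push_cast at h1
    rw [hZv] at h1
    exact h1
  refine ⟨(t : L) / z ^ 2, (t : L) / z ^ 3, ?_, ?_, ?_⟩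
  · field_simp
    linear_combination -htL
  · intro hx
    apply htm
    rw [hm]
    refine ⟨z' * Z * ⟨(t : L) / z ^ 2, hx⟩, ?_⟩
    apply Subtype.ext
    show (t : L) = π * ((z / π) * (Z : L) * ((t : L) / z ^ 2))
    rw [hZv]
    field_simp
  · field_simp

end Pool.PNF
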