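import Pool.Agent.H85.PN.U

/-!
# UNK: the units of a number field modulo squares

`(𝓞 K)ˣ ≅ torsion × ℤ^rank`, the torsion is cyclic of even order; the index of the squares is
multiplicative in products.
-/

set_option autoImplicit false

namespace Pool.PRN

open NumberField NumberField.Units

namespace UNKaux

lemma idx_equiv {G H : Type*} [CommGroup G] [CommGroup H] (e : G ≃* H) :
    (powMonoidHom 2 : G →* G).range.index = (powMonoidHom 2 : H →* H).range.index := by
  have h : (powMonoidHom 2 : G →* G).range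
      = ((powMonoidHom 2 : H →* H).range).comap e.toMonoidHom := by
    ext x
    rw [Subgroup.mem_comap, MonoidHom.mem_range, MonoidHom.mem_range]
    constructor
    · rintro ⟨y, hy⟩
      refine ⟨e y, ?_⟩
      rw [powMonoidHom_apply] at hy ⊢
      rw [← map_pow, hy]
      rfl
    · rintro ⟨y, hy⟩
      refine ⟨e.symm y, ?_⟩
      rw [powMonoidHom_apply] at hy ⊢
      rw [← map_pow, hy]
      exact e.symm_apply_apply x
  rw [h]
  exact Subgroup.index_comap_of_surjective _ e.surjective

lemma idx_prod (G H : Type*) [CommGroup G] [CommGroup H] :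
    (powMonoidHom 2 : G × H →* G × H).range.index
      = (powMonoidHom 2 : G →* G).range.index * (powMonoidHom 2 : H →* H).range.index := by
  have h : (powMonoidHom 2 : G × H →* G × H).range
      = ((powMonoidHom 2 : G →* G).range).prod ((powMonoidHom 2 : H →* H).range) := by
    ext x
    rw [Subgroup.mem_prod, MonoidHom.mem_range, MonoidHom.mem_range, MonoidHom.mem_range]
    constructor
    · rintro ⟨y, hy⟩
      rw [← hy]
      exact ⟨⟨y.1, rfl⟩, ⟨y.2, rfl⟩⟩
    · rintro ⟨⟨y, hy⟩, ⟨z, hz⟩⟩
      refine ⟨(y, z), ?_⟩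
      exact Prod.ext hy hz
  rw [h, Subgroup.index_prod]

lemma idx_pi (n : ℕ) (G : Type*) [CommGroup G] :
    (powMonoidHom 2 : (Fin n → G) →* (Fin n → G)).range.index
      = (powMonoidHom 2 : G →* G).range.index ^ n := by
  have h : (powMonoidHom 2 : (Fin n → G) →* (Fin n → G)).range
      = Subgroup.pi Set.univ (fun _ => (powMonoidHom 2 : G →* G).range) := by
    ext x
    rw [Subgroup.mem_pi, MonoidHom.mem_range]
    constructor
    · rintro ⟨y, hy⟩ i _
      rw [← hy]
      exact ⟨y i, rfl⟩
    · intro hx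
      have hx' : ∀ i, ∃ y, (powMonoidHom 2 : G →* G) y = x i := fun i => hx i (Set.mem_univ i)
      choose y hy using hx'
      refine ⟨y, ?_⟩
      funext i
      exact hy i
  rw [h, Subgroup.index_pi, Finset.prod_const, Finset.card_univ, Fintype.card_fin]

lemma idx_int : (powMonoidHom 2 : Multiplicative ℤ →* Multiplicative ℤ).range.index = 2 := by
  have h : (powMonoidHom 2 : Multiplicative ℤ →* Multiplicative ℤ).range
      = AddSubgroup.toSubgroup (AddSubgroup.zmultiples (2 : ℤ)) := by
    ext x
    rw [MonoidHom.mem_range]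
    constructor
    · rintro ⟨y, hy⟩
      rw [← hy]
      show Multiplicative.toAdd ((powMonoidHom 2 : Multiplicative ℤ →* Multiplicative ℤ) y)
        ∈ AddSubgroup.zmultiples (2 : ℤ)
      rw [powMonoidHom_apply, toAdd_pow, AddSubgroup.mem_zmultiples_iff]
      refine ⟨Multiplicative.toAdd y, ?_⟩
      simp only [smul_eq_mul, nsmul_eq_mul]
      push_cast
      ring
    · intro hx
      have hx' : Multiplicative.toAdd x ∈ AddSubgroup.zmultiples (2 : ℤ) := hx
      rw [AddSubgroup.mem_zmultiples_iff] at hx'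
      obtain ⟨k, hk⟩ := hx'
      refine ⟨Multiplicative.ofAdd k, ?_⟩
      rw [powMonoidHom_apply, ← ofAdd_nsmul]
      apply Multiplicative.toAdd.injective
      rw [toAdd_ofAdd, ← hk]
      simp only [smul_eq_mul, nsmul_eq_mul]
      push_cast
      ring
  rw [h, AddSubgroup.index_toSubgroup, Int.index_zmultiples]
  rfl

/-- The units as a product. -/
noncomputable def tfHom (K : Type) [Field K] [NumberField K] :
    (torsion K) × (Fin (rank K) → Multiplicative ℤ) →* (𝓞 K)ˣ where
  toFun x := (x.1 : (𝓞 K)ˣ) * ∏ i, (fundSystem K i) ^ (Multiplicative.toAdd (x.2 i))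
  map_one' := by simp
  map_mul' x y := by
    simp only [Prod.fst_mul, Prod.snd_mul, Pi.mul_apply, toAdd_mul, zpow_add,
      Finset.prod_mul_distrib, Subgroup.coe_mul]
    exact mul_mul_mul_comm _ _ _ _

lemma tf_bij (K : Type) [Field K] [NumberField K] : Function.Bijective (tfHom K) := by
  constructor
  · intro x y h
    obtain ⟨c, _, hc⟩ := exist_unique_eq_mul_prod K (tfHom K x)
    have h1 := hc (x.1, fun i => Multiplicative.toAdd (x.2 i)) rfl
    have h2 := hc (y.1, fun i => Multiplicative.toAdd (y.2 i)) h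
    have h3 := h1.trans h2.symm
    refine Prod.ext (congrArg Prod.fst h3) ?_
    funext i
    exact Multiplicative.toAdd.injective (congrFun (congrArg Prod.snd h3) i)
  · intro u
    obtain ⟨c, hc, _⟩ := exist_unique_eq_mul_prod K u
    exact ⟨(c.1, fun i => Multiplicative.ofAdd (c.2 i)), hc.symm⟩

end UNKaux

open UNKaux in
theorem unk : UNKStmt := by
  intro K _ _
  have h : (powMonoidHom 2 : (𝓞 K)ˣ →* (𝓞 K)ˣ).range.index = 2 ^ (Units.rank K + 1) := by
    rw [← idx_equiv (MulEquiv.ofBijective (tfHom K) (tf_bij K)), idx_prod, idx_pi, idx_int,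
      IsCyclic.index_powMonoidHom_range, pow_succ, mul_comm]
    congr 1
    have h2 : 2 ∣ Nat.card (torsion K) := (even_torsionOrder K).two_dvd
    exact Nat.gcd_eq_right h2
  have h' : Nat.card ((𝓞 K)ˣ ⧸ (powMonoidHom 2 : (𝓞 K)ˣ →* (𝓞 K)ˣ).range)
      = 2 ^ (Units.rank K + 1) := h
  refine ⟨?_, h'⟩
  apply Nat.finite_of_card_ne_zero
  rw [h']
  positivity

end Pool.PRN
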