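import Pool.Agent.H85.PN.U

/-!
# RPL: real places in extensions of odd degree

The extensions to `L` of a real embedding of `K` are odd in number, and complex conjugation acts on
them: one of them is real.
-/

set_option autoImplicit false

namespace Pool.PRN

open NumberField NumberField.InfinitePlace

namespace RPLaux

lemma exists_real (K L : Type) [Field K] [NumberField K] [Field L] [NumberField L] [Algebra K L]
    (hodd : Odd (Module.finrank K L)) (φ : K →+* ℂ) (hφ : ComplexEmbedding.IsReal φ) :
    ∃ ψ : L →+* ℂ, ComplexEmbedding.IsReal ψ ∧ ψ.comp (algebraMap K L) = φ := by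
  classical
  letI : Algebra K ℂ := φ.toAlgebra
  have hφ' : ∀ x : K, (starRingEnd ℂ) (φ x) = φ x := by
    intro x
    have := congrArg (fun g : K →+* ℂ => g x) (ComplexEmbedding.isReal_iff.mp hφ)
    exact this
  let c : (L →ₐ[K] ℂ) → (L →ₐ[K] ℂ) := fun g =>
    { toRingHom := (starRingEnd ℂ).comp g.toRingHom
      commutes' := by
        intro r
        show (starRingEnd ℂ) (g (algebraMap K L r)) = algebraMap K ℂ r
        rw [g.commutes]
        exact hφ' r }
  have hc : Function.Involutive c := by
    intro g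
    ext x
    show (starRingEnd ℂ) ((starRingEnd ℂ) (g x)) = g x
    exact Complex.conj_conj (g x)
  have hcard : Fintype.card (L →ₐ[K] ℂ) = Module.finrank K L := AlgHom.card K L ℂ
  have h2 : ¬ 2 ∣ Fintype.card (L →ₐ[K] ℂ) := by
    rw [hcard]
    intro h
    exact (Nat.not_even_iff_odd.mpr hodd) (even_iff_two_dvd.mpr h)
  have hσ : (hc.toPerm) ^ 2 ^ 1 = 1 := by
    rw [pow_one, pow_two]
    ext1 g
    exact hc g
  haveI : Fact (Nat.Prime 2) := ⟨Nat.prime_two⟩
  obtain ⟨g, hg⟩ := Equiv.Perm.exists_fixed_point_of_prime h2 hσ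
  refine ⟨g.toRingHom, ?_, ?_⟩
  · rw [ComplexEmbedding.isReal_iff]
    ext x
    have h3 : c g = g := hg
    have h4 := congrArg (fun k : L →ₐ[K] ℂ => k x) h3
    exact h4
  · ext x
    exact g.commutes x

end RPLaux

open RPLaux in
theorem rpl : RPLStmt := by
  intro K L _ _ _ _ _ hodd
  classical
  rw [← card_real_embeddings, ← card_real_embeddings]
  have h : ∀ φ : { φ : K →+* ℂ // ComplexEmbedding.IsReal φ },
      ∃ ψ : { ψ : L →+* ℂ // ComplexEmbedding.IsReal ψ },
        (ψ : L →+* ℂ).comp (algebraMap K L) = φ := by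
    intro φ
    obtain ⟨ψ, h1, h2⟩ := exists_real K L hodd φ.1 φ.2
    exact ⟨⟨ψ, h1⟩, h2⟩
  choose e he using h
  refine Fintype.card_le_of_injective e ?_
  intro a b hab
  apply Subtype.ext
  rw [← he a, ← he b, hab]

end Pool.PRN
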